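import Pool.Agent.Helper54.LM.LREG
import Pool.Agent.Helper99.LK.KSM

/-! # Module FINAL: regulators of elliptic curves -/

open Filter Topology NumberField

namespace Pool.Agent.Helper54.LM

open Pool.Agent.Helper42.LS Pool.Agent.Helper42.LK

/-- arithmetic-geometric mean inequality for the trace of a product -/
lemma FINAL_trace {m : ℕ} (hm : 1 ≤ m) {S G : Matrix (Fin m) (Fin m) ℝ} (hS : S.PosSemidef)
    (hG : G.PosSemidef) : (m : ℝ) * (S.det * G.det) ^ (1 / (m : ℝ)) ≤ (S * G).trace := by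
  classical
  have hm0 : (0 : ℝ) < m := by exact_mod_cast hm
  obtain ⟨B, hB⟩ : ∃ B : Matrix (Fin m) (Fin m) ℝ, S = star B * B := by
    open scoped MatrixOrder in
    exact CStarAlgebra.nonneg_iff_eq_star_mul_self.mp hS.nonneg
  obtain ⟨M, hM⟩ : ∃ M, M = B * G * B.conjTranspose := ⟨_, rfl⟩
  have hMp : M.PosSemidef := by rw [hM]; exact hG.mul_mul_conjTranspose_same B
  have htr : (S * G).trace = M.trace := by
    rw [hB, hM, Matrix.star_eq_conjTranspose, Matrix.mul_assoc, Matrix.trace_mul_comm]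
  have hdet : S.det * G.det = M.det := by
    rw [hB, hM, Matrix.star_eq_conjTranspose, Matrix.det_mul, Matrix.det_mul, Matrix.det_mul]
    ring
  rw [htr, hdet, hMp.isHermitian.trace_eq_sum_eigenvalues,
    hMp.isHermitian.det_eq_prod_eigenvalues]
  have hz : ∀ i ∈ (Finset.univ : Finset (Fin m)), 0 ≤ hMp.isHermitian.eigenvalues i :=
    fun i _ => hMp.eigenvalues_nonneg i
  have hag := Real.geom_mean_le_arith_mean_weighted (Finset.univ : Finset (Fin m))
    (fun _ => 1 / (m : ℝ)) hMp.isHermitian.eigenvalues (fun _ _ => by positivity)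
    (by rw [Finset.sum_const, Finset.card_univ, Fintype.card_fin, nsmul_eq_mul]; field_simp) hz
  rw [Real.finsetProd_rpow _ _ hz, ← Finset.mul_sum, one_div_mul_eq_div,
    le_div_iff₀ hm0] at hag
  simp only [RCLike.ofReal_real_eq_id, id_eq]
  linarith

/-- the determinant of a positive definite integer matrix is at least `1` -/
lemma FINAL_int {m : ℕ} {S : Matrix (Fin m) (Fin m) ℤ}
    (hS : (S.map (fun z : ℤ => (z : ℝ))).PosDef) : 1 ≤ (S.map (fun z : ℤ => (z : ℝ))).det := by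
  have h1 := hS.det_pos
  have h2 : (S.map (fun z : ℤ => (z : ℝ))).det = ((S.det : ℤ) : ℝ) := by
    have := RingHom.map_det (Int.castRingHom ℝ) S
    simp only [RingHom.mapMatrix_apply, Int.coe_castRingHom] at this
    exact this.symm
  rw [h2] at h1 ⊢
  have h3 : 0 < S.det := by exact_mod_cast h1
  exact_mod_cast h3

/-- curves of bounded size are finite in number -/
theorem FINAL_fin (hKRM : ST_KRM) (K : Type) [Field K] [NumberField K] (H₀ : ℝ) :
    ∃ T : Set (K × K), T.Finite ∧ ∀ A B : K, dsc A B ≠ 0 → HK A B ≤ H₀ →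
      ∃ u : K, u ≠ 0 ∧ (u ^ 4 * A, u ^ 6 * B) ∈ T := by
  obtain ⟨C, hC⟩ := hKRM K
  obtain ⟨M, hM⟩ : ∃ M : ℝ, M = max 0 ((H₀ + C) / (12 * Module.finrank ℚ K)) := ⟨_, rfl⟩
  have hM0 : 0 ≤ M := by rw [hM]; exact le_max_left _ _
  have hd : 0 < (Module.finrank ℚ K : ℝ) := by
    exact_mod_cast Module.finrank_pos
  refine ⟨{p | Height.logHeight₁ p.1 ≤ Module.finrank ℚ K * (4 * M) ∧
    Height.logHeight₁ p.2 ≤ Module.finrank ℚ K * (6 * M)}, ?_, ?_⟩
  · refine ((NumberField.finite_setOfPred_logHeight₁_le K (Module.finrank ℚ K * (4 * M))).prod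
      (NumberField.finite_setOfPred_logHeight₁_le K (Module.finrank ℚ K * (6 * M)))).subset ?_
    intro p hp
    exact ⟨hp.1, hp.2⟩
  intro A B hAB hH
  obtain ⟨u, l, hu, hl, hfin, hinf, hlog⟩ := hC A B hAB
  have hlM : Real.log l ≤ M := by
    have h1 : Real.log l ≤ (H₀ + C) / (12 * Module.finrank ℚ K) := by
      rw [le_div_iff₀ (by positivity)]
      nlinarith
    rw [hM]
    exact h1.trans (le_max_right _ _)
  have hlogw : ∀ (w : InfinitePlace K) (z : K) (n : ℕ), w z ≤ l ^ n →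
      Real.log (w z) ≤ n * M := by
    intro w z n h
    by_cases hz : w z = 0
    · rw [hz, Real.log_zero]
      positivity
    · have h1 : Real.log (w z) ≤ Real.log (l ^ n) :=
        Real.log_le_log (lt_of_le_of_ne (apply_nonneg w z) (Ne.symm hz)) h
      rw [Real.log_pow] at h1
      exact h1.trans (mul_le_mul_of_nonneg_left hlM (Nat.cast_nonneg n))
  refine ⟨u, hu, ?_, ?_⟩
  · apply KSM_height _ _ (fun v => (hfin v).1) _ (by positivity)
    intro w
    have h1 := hlogw w (u ^ 4 * A) 4 (hinf w).1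
    push_cast at h1
    exact h1
  · apply KSM_height _ _ (fun v => (hfin v).2) _ (by positivity)
    intro w
    have h1 := hlogw w (u ^ 6 * B) 6 (hinf w).2
    push_cast at h1
    exact h1

/-- `P` is an independent family of points -/
def Indep {K : Type} [Field K] [DecidableEq K] {A B : K} {m : ℕ}
    (P : Fin m → (ECK A B).toAffine.Point) : Prop :=
  ∀ k : Fin m → ℤ, k ≠ 0 → ∑ i, k i • P i ≠ 0

/-- `G` is the Gram matrix of the points `P` for the canonical height `lim h (x (2 ^ n Q)) / 4 ^ n` -/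
def IsGram {K : Type} [Field K] [NumberField K] [DecidableEq K] {A B : K} {m : ℕ}
    (P : Fin m → (ECK A B).toAffine.Point) (G : Matrix (Fin m) (Fin m) ℝ) : Prop :=
  G.IsSymm ∧ ∀ k : Fin m → ℤ, Tendsto (fun n : ℕ => hxK (2 ^ n • ∑ i, k i • P i) / 4 ^ n) atTop
    (𝓝 (∑ i, ∑ j, (k i : ℝ) * (k j : ℝ) * G i j))

/-- coordinates of the combinations, the height matrix -/
theorem FINAL_gram (hGL : ST_LGL) (hCH : ST_LCH) {K : Type} [Field K] [NumberField K]
    [DecidableEq K] {A B : K} (hD : dsc A B ≠ 0) {m : ℕ} (P : Fin m → (ECK A B).toAffine.Point)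
    (hP : Indep P) : ∃ X Y : (Fin m → ℤ) → K, GLat (0 : K) A B X Y ∧ (∃ G, IsGram P G) ∧
      ∀ G, IsGram P G → ∀ k, k ≠ 0 → IsCanK (fun n : ℕ => X (n • k)) (qf G k) := by
  obtain ⟨X, Y, hL, hXY⟩ := hGL K A B m P hP
  obtain ⟨G₀, hs, hcan, hcanK, -⟩ := hCH K A B hD m X Y hL
  have hx : ∀ k : Fin m → ℤ, k ≠ 0 → ∀ n : ℕ,
      hxK (2 ^ n • ∑ i, k i • P i) = Height.logHeight₁ (X (2 ^ n • k)) := by
    intro k hk n
    have hnk : 2 ^ n • k ≠ 0 := smul_ne_zero (by positivity) hk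
    obtain ⟨h, hh⟩ := hXY (2 ^ n • k) hnk
    have h1 : (2 ^ n • ∑ i, k i • P i : (ECK A B).toAffine.Point) =
        ∑ i, (2 ^ n • k) i • P i := by
      rw [Finset.smul_sum]
      refine Finset.sum_congr rfl fun i _ => ?_
      rw [Pi.smul_apply, ← natCast_zsmul, smul_smul, nsmul_eq_mul]
    rw [h1, hh]
    rfl
  have hG₀ : IsGram P G₀ := by
    refine ⟨hs, fun k => ?_⟩
    by_cases hk : k = 0
    · subst hk
      have h1 : ∀ n : ℕ, hxK (2 ^ n • ∑ i, (0 : Fin m → ℤ) i • P i) / (4 : ℝ) ^ n = 0 := by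
        intro n
        have : (2 ^ n • ∑ i, (0 : Fin m → ℤ) i • P i : (ECK A B).toAffine.Point) = 0 := by
          simp
        rw [this]
        have h0 : hxK (0 : (ECK A B).toAffine.Point) = 0 := rfl
        rw [h0, zero_div]
      simp only [h1]
      simp
    · have h1 := hcan k hk
      refine h1.congr fun n => ?_
      rw [hx k hk n]
  refine ⟨X, Y, hL, ⟨G₀, hG₀⟩, ?_⟩
  intro G hG k hk
  have h1 : qf G k = qf G₀ k := tendsto_nhds_unique (hG.2 k) (hG₀.2 k)
  rw [h1]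
  exact hcanK k hk

theorem st_FINAL (hGL : ST_LGL) (hCH : ST_LCH) (hREG : ST_LREG) (hKRM : ST_KRM)
    (hDF : ST_KDF) (K : Type) [Field K] [NumberField K] [DecidableEq K] (m : ℕ) (hm : 1 ≤ m) :
    (∀ A B : K, 4 * A ^ 3 + 27 * B ^ 2 ≠ 0 → ∀ P : Fin m → (ECK A B).toAffine.Point, Indep P →
      ∃ G : Matrix (Fin m) (Fin m) ℝ, IsGram P G) ∧
    (∃ c : ℝ, 0 < c ∧ ∀ A B : K, 4 * A ^ 3 + 27 * B ^ 2 ≠ 0 →
      ∀ P : Fin m → (ECK A B).toAffine.Point, Indep P →
      ∀ G : Matrix (Fin m) (Fin m) ℝ, IsGram P G →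
        c * (1 + HK A B) ^ ((2 * (m : ℝ) ^ 2 - m - 12) / (4 * m + 9)) ≤ G.det ∧
        ∀ S : Matrix (Fin m) (Fin m) ℤ, (S.map (fun z : ℤ => (z : ℝ))).PosDef →
          c * (1 + HK A B) ^ ((2 * (m : ℝ) ^ 2 - m - 12) / (m * (4 * m + 9))) ≤
            ∑ i, ∑ j, (S i j : ℝ) * G i j) ∧
    (3 ≤ m → ∀ R : ℝ, ∃ T : Set (K × K), T.Finite ∧
      ∀ A B : K, 4 * A ^ 3 + 27 * B ^ 2 ≠ 0 → ∀ P : Fin m → (ECK A B).toAffine.Point, Indep P →
      ∀ G : Matrix (Fin m) (Fin m) ℝ, IsGram P G → G.det ≤ R →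
        ∃ u : K, u ≠ 0 ∧ (u ^ 4 * A, u ^ 6 * B) ∈ T) := by
  obtain ⟨c, hc, hcR⟩ := hREG K m hm
  have hm0 : (0 : ℝ) < m := by exact_mod_cast hm
  have hHK : ∀ A B : K, 4 * A ^ 3 + 27 * B ^ 2 ≠ 0 → 0 ≤ HK A B := by
    intro A B hD
    unfold HK LD
    exact add_nonneg (finsum_nonneg fun v => ((hDF K A B hD).2.1 v).1)
      (Height.zero_le_logHeight₁ _)
  have key : ∀ A B : K, 4 * A ^ 3 + 27 * B ^ 2 ≠ 0 →
      ∀ P : Fin m → (ECK A B).toAffine.Point, Indep P →
      ∀ G : Matrix (Fin m) (Fin m) ℝ, IsGram P G →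
        c * (1 + HK A B) ^ gam m ≤ G.det ∧ G.PosSemidef := by
    intro A B hD P hP G hG
    obtain ⟨X, Y, hL, -, hcan⟩ := FINAL_gram hGL hCH hD P hP
    refine ⟨hcR A B hD X Y G hL hG.1 (hcan G hG), LREG_psd hG.1 fun k => ?_⟩
    refine ge_of_tendsto' (hG.2 k) fun n => div_nonneg ?_ (by positivity)
    rcases (2 ^ n • ∑ i, k i • P i : (ECK A B).toAffine.Point) with _ | ⟨x, y, h⟩
    · exact le_rfl
    · exact Height.zero_le_logHeight₁ _
  refine ⟨?_, ?_, ?_⟩
  · intro A B hD P hP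
    obtain ⟨X, Y, hL, hG, -⟩ := FINAL_gram hGL hCH hD P hP
    exact hG
  · refine ⟨min c (m * c ^ (1 / (m : ℝ))), lt_min hc (by positivity), ?_⟩
    intro A B hD P hP G hG
    obtain ⟨h1, h2⟩ := key A B hD P hP G hG
    have hH := hHK A B hD
    have hH1 : 0 < 1 + HK A B := by linarith
    refine ⟨?_, ?_⟩
    · refine le_trans (mul_le_mul_of_nonneg_right (min_le_left _ _)
        (Real.rpow_nonneg hH1.le _)) ?_
      exact h1
    · intro S hS
      refine le_trans (mul_le_mul_of_nonneg_right (min_le_right _ _)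
        (Real.rpow_nonneg hH1.le _)) ?_
      have h3 := FINAL_trace hm hS.posSemidef h2
      have h4 : (S.map (fun z : ℤ => (z : ℝ)) * G).trace = ∑ i, ∑ j, (S i j : ℝ) * G i j := by
        rw [Matrix.trace]
        refine Finset.sum_congr rfl fun i _ => ?_
        rw [Matrix.diag_apply, Matrix.mul_apply]
        refine Finset.sum_congr rfl fun j _ => ?_
        rw [Matrix.map_apply]
        have h5 := congrFun (congrFun hG.1 i) j
        rw [Matrix.transpose_apply] at h5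
        rw [h5]
      rw [h4] at h3
      refine le_trans ?_ h3
      have h5 := FINAL_int hS
      have h6 : (c * (1 + HK A B) ^ gam m) ^ (1 / (m : ℝ)) ≤
          ((S.map (fun z : ℤ => (z : ℝ))).det * G.det) ^ (1 / (m : ℝ)) := by
        refine Real.rpow_le_rpow (by positivity) ?_ (by positivity)
        have h7 : 0 ≤ G.det := h2.det_nonneg
        nlinarith
      have h8 : (c * (1 + HK A B) ^ gam m) ^ (1 / (m : ℝ)) = c ^ (1 / (m : ℝ)) *
          (1 + HK A B) ^ ((2 * (m : ℝ) ^ 2 - m - 12) / (m * (4 * m + 9))) := by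
        rw [Real.mul_rpow hc.le (Real.rpow_nonneg hH1.le _), ← Real.rpow_mul hH1.le]
        congr 2
        unfold gam
        field_simp
      calc (m : ℝ) * c ^ (1 / (m : ℝ)) *
          (1 + HK A B) ^ ((2 * (m : ℝ) ^ 2 - m - 12) / (m * (4 * m + 9)))
          = m * (c * (1 + HK A B) ^ gam m) ^ (1 / (m : ℝ)) := by rw [h8]; ring
        _ ≤ _ := mul_le_mul_of_nonneg_left h6 hm0.le
  · intro hm3 R
    have hg : 0 < gam m := by
      unfold gam
      have h3 : (3 : ℝ) ≤ m := by exact_mod_cast hm3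
      apply div_pos _ (by positivity)
      nlinarith
    obtain ⟨T, hT, hT2⟩ := FINAL_fin hKRM K ((max 0 (R / c)) ^ (1 / gam m))
    refine ⟨T, hT, ?_⟩
    intro A B hD P hP G hG hR
    obtain ⟨h1, h2⟩ := key A B hD P hP G hG
    have hH := hHK A B hD
    apply hT2 A B hD
    have h3 : (1 + HK A B) ^ gam m ≤ max 0 (R / c) := by
      refine le_trans ?_ (le_max_right _ _)
      rw [le_div_iff₀ hc]
      linarith
    have h4 : ((1 + HK A B) ^ gam m) ^ (1 / gam m) ≤ (max 0 (R / c)) ^ (1 / gam m) :=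
      Real.rpow_le_rpow (Real.rpow_nonneg (by linarith) _) h3 (by positivity)
    rw [← Real.rpow_mul (by linarith), mul_one_div_cancel hg.ne', Real.rpow_one] at h4
    linarith

end Pool.Agent.Helper54.LM
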