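import Pool.Agent.Helper42.LK.Defs

/-!
# Several independent points (MP_9a3c31_nt, helper54): definitions and module statements

Blueprint: /team-store/h54_lm_blueprint.md
-/

open Filter Topology NumberField

namespace Pool.Agent.Helper54.LM

open Pool.Agent.Helper42.LS Pool.Agent.Helper42.LK

/-- pairing of an integer vector with a real vector -/
noncomputable def pr {m : ℕ} (k : Fin m → ℤ) (t : Fin m → ℝ) : ℝ := ∑ i, (k i : ℝ) * t i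

/-- Coordinates of the points `k ≠ 0` of a free group of rank `m` of points on
`Y ^ 2 = X ^ 3 + a X ^ 2 + b X + c` over a field. -/
structure GLat {F : Type} [Field F] {m : ℕ} (a b c : F) (X Y : (Fin m → ℤ) → F) : Prop where
  curve : ∀ k, k ≠ 0 → Y k ^ 2 = X k ^ 3 + a * X k ^ 2 + b * X k + c
  yne : ∀ k, k ≠ 0 → Y k ≠ 0
  negx : ∀ k, k ≠ 0 → X (-k) = X k
  negy : ∀ k, k ≠ 0 → Y (-k) = -Y k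
  xne : ∀ k l, k ≠ 0 → l ≠ 0 → k ≠ l → k ≠ -l → X k ≠ X l
  dblx : ∀ k, k ≠ 0 → X (k + k) = ((3 * X k ^ 2 + 2 * a * X k + b) / (2 * Y k)) ^ 2 - a - 2 * X k
  dbly : ∀ k, k ≠ 0 → Y (k + k) =
    -((3 * X k ^ 2 + 2 * a * X k + b) / (2 * Y k) * (X (k + k) - X k) + Y k)
  addx : ∀ k l, k ≠ 0 → l ≠ 0 → k ≠ l → k ≠ -l →
    X (k + l) = ((Y k - Y l) / (X k - X l)) ^ 2 - a - X k - X l
  addy : ∀ k l, k ≠ 0 → l ≠ 0 → k ≠ l → k ≠ -l →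
    Y (k + l) = -((Y k - Y l) / (X k - X l) * (X (k + l) - X k) + Y k)

/-! ### group law, sequences -/

/-- LGL : group law -/
def ST_LGL : Prop := ∀ (K : Type) [Field K] [CharZero K] [DecidableEq K] (A B : K) (m : ℕ)
  (P : Fin m → (ECK A B).toAffine.Point), (∀ k : Fin m → ℤ, k ≠ 0 → ∑ i, k i • P i ≠ 0) →
  ∃ X Y : (Fin m → ℤ) → K, GLat (0 : K) A B X Y ∧
    ∀ k : Fin m → ℤ, k ≠ 0 → ∃ h, ∑ i, k i • P i =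
      WeierstrassCurve.Affine.Point.some (X k) (Y k) h

/-- LSQ : the multiples of one point -/
def ST_LSQ : Prop := ∀ (F : Type) [Field F] (m : ℕ) (a b c : F) (X Y : (Fin m → ℤ) → F),
  GLat a b c X Y → ∀ k : Fin m → ℤ, k ≠ 0 →
    GSeq a b c (fun n : ℕ => X (n • k)) (fun n : ℕ => Y (n • k))

/-- LMAP : field homomorphisms -/
def ST_LMAP : Prop := ∀ (F E : Type) [Field F] [Field E] (φ : F →+* E) (m : ℕ) (a b c : F)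
  (X Y : (Fin m → ℤ) → F), GLat a b c X Y →
    GLat (φ a) (φ b) (φ c) (fun k => φ (X k)) (fun k => φ (Y k))

/-- LSC : rescaling -/
def ST_LSC : Prop := ∀ (F : Type) [Field F] (m : ℕ) (A B u : F) (X Y : (Fin m → ℤ) → F), u ≠ 0 →
  GLat (0 : F) A B X Y →
    GLat (0 : F) (u ^ 4 * A) (u ^ 6 * B) (fun k => u ^ 2 * X k) (fun k => u ^ 3 * Y k)

/-! ### folded homomorphisms -/

/-- LFS : FS1 on an arbitrary abelian group -/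
def ST_LFS : Prop := ∃ K : ℝ, 1 ≤ K ∧ ∀ (W C : ℝ), 0 < W → 0 ≤ C → ∀ (G : Type) [AddCommGroup G]
  (f : G → ℝ),
  (∀ k : G, 0 ≤ f k ∧ f k ≤ W / 2) → f 0 = 0 → (∀ k : G, f (-k) = f k) →
  (∀ a b : G,
    (|f (a - b) - abs (f a - f b)| ≤ C ∧ |f (a + b) - min (f a + f b) (W - (f a + f b))| ≤ C) ∨
    (|f (a + b) - abs (f a - f b)| ≤ C ∧ |f (a - b) - min (f a + f b) (W - (f a + f b))| ≤ C)) →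
  (∃ g : G, K * C < f g ∧ f g < W / 2 - K * C) →
  ∃ T : G → ℝ, (∀ k : G, T k = f k ∨ T k = -f k) ∧
    ∀ a b : G, ∃ n : ℤ, |T (a + b) - T a - T b - n * W| ≤ K * C

/-- LFT : stability of folded homomorphisms on `ℤ ^ m` -/
def ST_LFT : Prop := ∀ m : ℕ, ∃ K : ℝ, 0 ≤ K ∧ ∀ (W C : ℝ), 0 < W → 0 ≤ C →
  ∀ f : (Fin m → ℤ) → ℝ,
  (∀ k, 0 ≤ f k ∧ f k ≤ W / 2) → f 0 = 0 → (∀ k, f (-k) = f k) →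
  (∀ a b : Fin m → ℤ,
    (|f (a - b) - abs (f a - f b)| ≤ C ∧ |f (a + b) - min (f a + f b) (W - (f a + f b))| ≤ C) ∨
    (|f (a + b) - abs (f a - f b)| ≤ C ∧ |f (a - b) - min (f a + f b) (W - (f a + f b))| ≤ C)) →
  ∃ τ : Fin m → ℝ, ∀ k : Fin m → ℤ, |f k - W * nd (pr k τ)| ≤ K * C

/-! ### finite places -/

/-- LPM : multiplicative place -/
def ST_LPM : Prop := ∀ (F : Type) [Field F] [CharZero F] (v : DV F) (N : ℕ), 1 ≤ N →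
  ∀ A B : F, dsc A B ≠ 0 →
  v.ord (6912 * A ^ 3 / dsc A B) = -(N : ℤ) → ∀ (m : ℕ) (X Y : (Fin m → ℤ) → F),
  GLat (0 : F) A B X Y →
  ∃ (r : ℤ) (a : Fin m → ℤ),
    v.ord (16 * dsc A B) = N + 6 * r ∧
    ∀ k : Fin m → ℤ, k ≠ 0 → ∃ U : ℕ → ℝ,
    (∀ n : ℕ, 1 ≤ n → 4 * U n ≤ U (2 * n) + Real.log (v.nr (4 * cu A B (X (n • k))))) ∧
    (∃ C : ℝ, ∀ n : ℕ, 1 ≤ n → U n ≤ Real.log (max (v.nr (X (n • k))) 1) + C) ∧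
    (∀ n : ℕ, 1 ≤ n → N * Real.log v.q *
      (B2 (n * pr k (fun i => (a i : ℝ) / (2 * N))) - 1 / 6) - r * Real.log v.q ≤ U n) ∧
    (v.ord 2 = 0 → v.ord 3 = 0 → v.nr A < 1 → ∀ n : ℕ, 1 ≤ n → 1 ≤ v.nr (X (n • k)) → 0 ≤ U n)

/-- LLB : local package, residue characteristic not 2, 3 -/
def ST_LLB : Prop := ∀ (F : Type) [Field F] [CharZero F] (v : DV F), v.ord 2 = 0 → v.ord 3 = 0 →
  ∀ A B : F, dsc A B ≠ 0 → ∀ (m : ℕ) (X Y : (Fin m → ℤ) → F), GLat (0 : F) A B X Y →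
  ∃ (t : Fin m → ℝ) (N : ℕ), 0 ≤ dl v.nr A B ∧ 1 ≤ N ∧ (∀ i, ∃ a : ℤ, (N : ℝ) * t i = a) ∧
    (dl v.nr A B ≠ 0 → N * Real.log v.q ≤ dl v.nr A B) ∧
    ∀ k : Fin m → ℤ, k ≠ 0 → ∃ U : ℕ → ℝ,
    (∀ n : ℕ, 1 ≤ n → 4 * U n ≤ U (2 * n) + Real.log (v.nr (4 * cu A B (X (n • k))))) ∧
    (∃ C : ℝ, ∀ n : ℕ, 1 ≤ n → U n ≤ Real.log (max (v.nr (X (n • k))) 1) + C) ∧
    (∀ n : ℕ, 1 ≤ n → dl v.nr A B * B2 (n * pr k t) + 1 / 6 * Real.log (v.nr (dsc A B)) ≤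
      U (12 * n))

/-- LLS : local package, any place, constant depending on the place -/
def ST_LLS : Prop := ∀ (F : Type) [Field F] [CharZero F] (v : DV F), ∃ C₀ : ℝ, 0 ≤ C₀ ∧
  ∀ A B : F, dsc A B ≠ 0 → ∀ (m : ℕ) (X Y : (Fin m → ℤ) → F), GLat (0 : F) A B X Y →
  ∃ (w : ℝ) (t : Fin m → ℝ) (N : ℕ), 0 ≤ w ∧ |w - dl v.nr A B| ≤ C₀ ∧ 1 ≤ N ∧
    (∀ i, ∃ a : ℤ, (N : ℝ) * t i = a) ∧ (w ≠ 0 → N * Real.log v.q ≤ w) ∧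
    ∀ k : Fin m → ℤ, k ≠ 0 → ∃ U : ℕ → ℝ,
    (∀ n : ℕ, 1 ≤ n → 4 * U n - C₀ ≤ U (2 * n) + Real.log (v.nr (4 * cu A B (X (n • k))))) ∧
    (∃ C : ℝ, ∀ n : ℕ, 1 ≤ n → U n ≤ Real.log (max (v.nr (X (n • k))) 1) + C) ∧
    (∀ n : ℕ, 1 ≤ n → w * B2 (n * pr k t) + 1 / 6 * Real.log (v.nr (dsc A B)) - C₀ ≤ U (12 * n))

/-! ### archimedean places -/

/-- LID : identities for `S k = (Y k / Z k) ^ 2` -/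
def ST_LID : Prop := ∀ κ : ℂ, κ ≠ 0 → ‖κ‖ ≤ 1 / 100 → ∀ (m : ℕ) (Z Y : (Fin m → ℤ) → ℂ),
  GLat (-(2 + κ)) 1 0 Z Y → ∀ S : (Fin m → ℤ) → ℂ, (∀ k, S k = (Y k / Z k) ^ 2) →
  (∀ k, k ≠ 0 → Z k ≠ 0 ∧ S k ≠ 0 ∧ S k + κ ≠ 0 ∧ S k + 4 + κ ≠ 0 ∧
    Z (k + k) * (4 * Y k ^ 2) = (Z k ^ 2 - 1) ^ 2 ∧
    S (k + k) * (4 * S k * (S k + κ) * (S k + 4 + κ)) = (S k ^ 2 - κ * (4 + κ)) ^ 2) ∧
  (∀ k l, k ≠ 0 → l ≠ 0 → k ≠ l → k ≠ -l → S k ≠ S l ∧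
    (S (k + l) + S (k - l)) * (S k - S l) ^ 2 =
      2 * (S k + S l) * (S k * S l + κ * (4 + κ)) + 4 * (4 + 2 * κ) * (S k * S l) ∧
    S (k + l) * S (k - l) * (S k - S l) ^ 2 = (S k * S l - κ * (4 + κ)) ^ 2)

/-- LCS : large `j`, normalised -/
def ST_LCS : Prop := ∀ m : ℕ, ∃ C₀ : ℝ, ∀ κ : ℂ, κ ≠ 0 → ‖κ‖ ≤ 1 / 100 →
  ∀ Z Y : (Fin m → ℤ) → ℂ, GLat (-(2 + κ)) 1 0 Z Y →
  ∃ τ : Fin m → ℝ, ∀ k : Fin m → ℤ, k ≠ 0 → ∃ U : ℕ → ℝ,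
    (∀ n : ℕ, 1 ≤ n → 4 * U n - C₀ ≤ U (2 * n) + Real.log ‖4 * Y (n • k) ^ 2‖) ∧
    (∀ n : ℕ, 1 ≤ n → U n ≤ Real.log (max ‖Z (n • k)‖ 1)) ∧
    (∀ n : ℕ, 1 ≤ n → (-Real.log ‖κ‖) * (B2 (n * pr k τ) - 1 / 6) - C₀ ≤ U n)

/-- LCX : archimedean places, final form -/
def ST_LCX : Prop := ∀ m : ℕ, ∃ C₀ : ℝ, 0 ≤ C₀ ∧ ∀ A B : ℂ, dsc A B ≠ 0 →
  ∀ X Y : (Fin m → ℤ) → ℂ, GLat (0 : ℂ) A B X Y →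
  ∃ τ : Fin m → ℝ, ∀ k : Fin m → ℤ, k ≠ 0 → ∃ U : ℕ → ℝ,
    (∀ n : ℕ, 1 ≤ n → 4 * U n - C₀ ≤ U (2 * n) + Real.log ‖4 * cu A B (X (n • k))‖) ∧
    (∃ C : ℝ, ∀ n : ℕ, 1 ≤ n → U n ≤ Real.log (max ‖X (n • k)‖ 1) + C) ∧
    (∀ n : ℕ, 1 ≤ n → 1 / 6 * Real.log ‖dsc A B‖
      + max 0 (Real.log ‖6912 * A ^ 3 / dsc A B‖) * B2 (n * pr k τ) - C₀ ≤ U n)

/-! ### global part -/

/-- LPL : parallelogram law up to a constant -/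
def ST_LPL : Prop := ∀ (K : Type) [Field K] [NumberField K] (A B : K), dsc A B ≠ 0 →
  ∃ C : ℝ, ∀ (m : ℕ) (X Y : (Fin m → ℤ) → K), GLat (0 : K) A B X Y →
    (∀ k l, k ≠ 0 → l ≠ 0 → k ≠ l → k ≠ -l →
      |Height.logHeight₁ (X (k + l)) + Height.logHeight₁ (X (k - l)) -
        2 * Height.logHeight₁ (X k) - 2 * Height.logHeight₁ (X l)| ≤ C) ∧
    (∀ k, k ≠ 0 → |Height.logHeight₁ (X (k + k)) - 4 * Height.logHeight₁ (X k)| ≤ C)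

/-- `e k` is the canonical height of the point `k` -/
def IsCanL {K : Type} [Field K] [NumberField K] {m : ℕ} (X : (Fin m → ℤ) → K)
    (e : (Fin m → ℤ) → ℝ) : Prop :=
  ∀ k : Fin m → ℤ, k ≠ 0 →
    Tendsto (fun n : ℕ => Height.logHeight₁ (X (2 ^ n • k)) / 4 ^ n) atTop (𝓝 (e k))

/-- the quadratic form with matrix `G` on integer vectors -/
noncomputable def qf {m : ℕ} (G : Matrix (Fin m) (Fin m) ℝ) (k : Fin m → ℤ) : ℝ :=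
  ∑ i, ∑ j, (k i : ℝ) * (k j : ℝ) * G i j

/-- LCH : the canonical height is a quadratic form, positive on nonzero vectors -/
def ST_LCH : Prop := ∀ (K : Type) [Field K] [NumberField K] (A B : K), dsc A B ≠ 0 →
  ∀ (m : ℕ) (X Y : (Fin m → ℤ) → K), GLat (0 : K) A B X Y →
  ∃ G : Matrix (Fin m) (Fin m) ℝ, G.IsSymm ∧ IsCanL X (qf G) ∧
    (∀ k, k ≠ 0 → IsCanK (fun n : ℕ => X (n • k)) (qf G k)) ∧ ∀ k, k ≠ 0 → 0 < qf G k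

/-- summary of the master inequality for several points -/
structure LSum {m : ℕ} (C₀ H : ℝ) (e : (Fin m → ℤ) → ℝ) (V Vf : Finset ℕ) (w : ℕ → ℝ)
    (t : ℕ → Fin m → ℝ) (N : ℕ → ℕ) : Prop where
  sub : Vf ⊆ V
  nonneg : ∀ v ∈ V, 0 ≤ w v
  npos : ∀ v ∈ Vf, 1 ≤ N v
  int : ∀ v ∈ Vf, ∀ i, ∃ a : ℤ, (N v : ℝ) * t v i = a
  nle : ∀ v ∈ Vf, w v ≠ 0 → N v * Real.log 2 ≤ w v
  card : ((V \ Vf).card : ℝ) ≤ C₀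
  total : |∑ v ∈ V, w v - H| ≤ C₀
  main : ∀ k : Fin m → ℤ, k ≠ 0 → ∑ v ∈ V, w v * B2 (pr k (t v)) - C₀ ≤ 144 * e k

/-- LMT : master inequality for several points -/
def ST_LMT : Prop := ∀ (K : Type) [Field K] [NumberField K] (m : ℕ), ∃ C₀ : ℝ, 0 ≤ C₀ ∧
  ∀ A B : K, dsc A B ≠ 0 → ∀ (X Y : (Fin m → ℤ) → K) (e : (Fin m → ℤ) → ℝ),
  GLat (0 : K) A B X Y → (∀ k, k ≠ 0 → IsCanK (fun n : ℕ => X (n • k)) (e k)) →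
  ∃ H : ℝ, 0 ≤ H ∧ H ≤ HK A B ∧ HK A B ≤ 2 * H ∧
  ∃ (V Vf : Finset ℕ) (w : ℕ → ℝ) (t : ℕ → Fin m → ℝ) (N : ℕ → ℕ),
    LSum C₀ H e V Vf w t N

/-! ### combinatorial part -/

/-- LBC : nonnegativity facts for `B2` -/
def ST_LBC : Prop := ∀ (ι : Type) (S : Finset ι) (x y : ι → ℝ),
  0 ≤ ∑ a ∈ S, ∑ b ∈ S, B2 (x a - x b) ∧
  (∀ N : ℕ, 1 ≤ N → (∀ a ∈ S, ∃ n : ℤ, (N : ℝ) * x a = n) →
    (S.card : ℝ) ^ 2 / (6 * (N : ℝ) ^ 2) ≤ ∑ a ∈ S, ∑ b ∈ S, B2 (x a - x b)) ∧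
  0 ≤ ∑ a ∈ S, ∑ b ∈ S, B2 (x a - x b) * B2 (y a - y b) ∧
  (S.card : ℝ) ^ 2 / 180 ≤ ∑ a ∈ S, ∑ b ∈ S, B2 (x a - x b) ^ 2

/-- LBK : kernel inequality -/
def ST_LBK : Prop := ∀ (ι : Type) (S : Finset ι) (x β : ι → ℝ),
  12 * (∑ a ∈ S, β a * B2 (x a)) ^ 2 ≤
    ∑ a ∈ S, ∑ b ∈ S, β a * β b * (B2 (x a - x b) + B2 (x a + x b))

/-- LSG : denominators -/
def ST_LSG : Prop := ∀ (m : ℕ) (S : Finset (Fin m → ℤ)) (V Vf : Finset ℕ) (w : ℕ → ℝ)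
  (t : ℕ → Fin m → ℝ) (N : ℕ → ℕ), Vf ⊆ V → (∀ v ∈ V, 0 ≤ w v) → (∀ v ∈ Vf, 1 ≤ N v) →
  (∀ v ∈ Vf, ∀ i, ∃ a : ℤ, (N v : ℝ) * t v i = a) →
  0 < ∑ v ∈ Vf, w v / (N v : ℝ) ^ 2 →
  2 * (∑ v ∈ V, w v) ≤ S.card * ∑ v ∈ Vf, w v / (N v : ℝ) ^ 2 →
  ∃ a ∈ S, ∃ b ∈ S, a ≠ b ∧
    (∑ v ∈ Vf, w v / (N v : ℝ) ^ 2) / 12 ≤ ∑ v ∈ V, w v * B2 (pr (a - b) (t v))

/-- LSR : second moment -/
def ST_LSR : Prop := ∃ c C : ℝ, 0 < c ∧ 0 < C ∧ ∀ (m : ℕ) (S : Finset (Fin m → ℤ))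
  (V : Finset ℕ) (w : ℕ → ℝ) (t : ℕ → Fin m → ℝ) (ρ : ℝ), (∀ v ∈ V, 0 ≤ w v) →
  0 < ∑ v ∈ V, w v → 0 < ρ → ρ * (∑ v ∈ V, w v) ^ 2 ≤ ∑ v ∈ V, w v ^ 2 → C ≤ ρ * S.card →
  ∃ a₁ ∈ S, ∃ a₂ ∈ S, ∃ b₁ ∈ S, ∃ b₂ ∈ S, a₁ + a₂ - b₁ - b₂ ≠ 0 ∧
    c * (ρ ^ (2 / 3 : ℝ) * ∑ v ∈ V, w v) ≤ ∑ v ∈ V, w v * B2 (pr (a₁ + a₂ - b₁ - b₂) (t v))

/-- LBF : many lattice vectors with small differences -/
def ST_LBF : Prop := ∀ m : ℕ, ∃ c : ℝ, 0 < c ∧ ∀ G : Matrix (Fin m) (Fin m) ℝ, G.PosDef →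
  ∀ T : ℝ, 0 < T → ∃ S : Finset (Fin m → ℤ),
    c * T ^ ((m : ℝ) / 2) ≤ S.card * √G.det ∧ ∀ a ∈ S, ∀ b ∈ S, qf G (a - b) ≤ T

/-- the exponent -/
noncomputable def gam (m : ℕ) : ℝ := (2 * (m : ℝ) ^ 2 - m - 12) / (4 * m + 9)

/-- LFIN : final arithmetic -/
def ST_LFIN : Prop := ∀ (m : ℕ), 1 ≤ m → ∀ C₀ : ℝ, 0 ≤ C₀ → ∃ c W₀ : ℝ, 0 < c ∧ 1 ≤ W₀ ∧
  ∀ (G : Matrix (Fin m) (Fin m) ℝ), G.PosDef → ∀ (H : ℝ) (V Vf : Finset ℕ) (w : ℕ → ℝ)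
  (t : ℕ → Fin m → ℝ) (N : ℕ → ℕ), LSum C₀ H (qf G) V Vf w t N →
  W₀ ≤ ∑ v ∈ V, w v → c * (∑ v ∈ V, w v) ^ gam m ≤ G.det

/-- the theorem -/
def ST_LREG : Prop := ∀ (K : Type) [Field K] [NumberField K] (m : ℕ), 1 ≤ m → ∃ c : ℝ, 0 < c ∧
  ∀ A B : K, dsc A B ≠ 0 → ∀ (X Y : (Fin m → ℤ) → K) (G : Matrix (Fin m) (Fin m) ℝ),
  GLat (0 : K) A B X Y → G.IsSymm → (∀ k, k ≠ 0 → IsCanK (fun n : ℕ => X (n • k)) (qf G k)) →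
  c * (1 + HK A B) ^ gam m ≤ G.det

end Pool.Agent.Helper54.LM
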