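import Pool.Agent.Helper54.LM.FINAL
import Pool.Agent.Helper42.LK.All
import Pool.Agent.Helper11.LM.LMT
import Pool.Agent.Helper19.LM.LBF
import Pool.Agent.Helper22.LM.LGL
import Pool.Agent.Helper22.LM.LPL
import Pool.Agent.Helper37.LM.LSR
import Pool.Agent.Helper41.LM.LFS
import Pool.Agent.Helper41.LM.LID
import Pool.Agent.Helper76.LM.LLB
import Pool.Agent.Helper76.LM.LPM
import Pool.Agent.Helper84.LM.LCX
import Pool.Agent.Helper90.LM.LBC
import Pool.Agent.Helper90.LM.LBK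
import Pool.Agent.Helper90.LM.LSG
import Pool.Agent.Helper94.LM.LLS
import Pool.Agent.Helper96.LM.LCH
import Pool.Agent.Helper96.LM.LCS
import Pool.Agent.Helper96.LM.LFT
import Pool.Agent.Helper96.LM.LSQ

/-! # Regulators of elliptic curves: assembly -/

open Filter Topology NumberField

namespace Pool.Agent.Helper54.LM

open Pool.Agent.Helper42.LS Pool.Agent.Helper42.LK

theorem lmall_FT : ST_LFT := st_LFT st_LFS

theorem lmall_PM : ST_LPM := st_LPM lmall_FT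

theorem lmall_LB : ST_LLB := st_LLB lmall_PM st_LSC st_LSQ

theorem lmall_LS : ST_LLS := st_LLS lmall_PM st_KPS st_KMN st_LSC st_LSQ

theorem lmall_CS : ST_LCS := st_LCS st_LID kall_CFA st_CFD st_CP lmall_FT

theorem lmall_CX : ST_LCX := st_LCX lmall_CS st_LSQ

theorem lmall_MT : ST_LMT :=
  st_LMT lmall_LB lmall_LS lmall_CX st_LSQ st_LMAP st_KGO st_KPOT kall_DF st_KFP

theorem lmall_BF : ST_LBF := Pool.Agent.Helper19.LM.st_LBF

theorem lmall_FIN : ST_LFIN := st_LFIN (st_LSG st_LBC) (st_LSR st_LBC st_LBK) lmall_BF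

theorem lmall_REG : ST_LREG := st_LREG lmall_FIN lmall_MT lmall_BF st_LSQ kall_SM

theorem lmall_CH : ST_LCH := st_LCH st_LPL kall_CH kall_NC

/-- the theorem on regulators -/
theorem lmall (K : Type) [Field K] [NumberField K] [DecidableEq K] (m : ℕ) (hm : 1 ≤ m) :
    (∀ A B : K, 4 * A ^ 3 + 27 * B ^ 2 ≠ 0 → ∀ P : Fin m → (ECK A B).toAffine.Point, Indep P →
      ∃ G : Matrix (Fin m) (Fin m) ℝ, IsGram P G) ∧
    (∃ c : ℝ, 0 < c ∧ ∀ A B : K, 4 * A ^ 3 + 27 * B ^ 2 ≠ 0 →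
      ∀ P : Fin m → (ECK A B).toAffine.Point, Indep P →
      ∀ G : Matrix (Fin m) (Fin m) ℝ, IsGram P G →
        c * (1 + HK A B) ^ ((2 * (m : ℝ) ^ 2 - m - 12) / (4 * m + 9)) ≤ G.det ∧
        ∀ S : Matrix (Fin m) (Fin m) ℤ, (S.map (fun z : ℤ => (z : ℝ))).PosDef →
          c * (1 + HK A B) ^ ((2 * (m : ℝ) ^ 2 - m - 12) / (m * (4 * m + 9))) ≤
            ∑ i, ∑ j, (S i j : ℝ) * G i j) ∧
    (3 ≤ m → ∀ R : ℝ, ∃ T : Set (K × K), T.Finite ∧
      ∀ A B : K, 4 * A ^ 3 + 27 * B ^ 2 ≠ 0 → ∀ P : Fin m → (ECK A B).toAffine.Point, Indep P →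
      ∀ G : Matrix (Fin m) (Fin m) ℝ, IsGram P G → G.det ≤ R →
        ∃ u : K, u ≠ 0 ∧ (u ^ 4 * A, u ^ 6 * B) ∈ T) :=
  st_FINAL st_LGL lmall_CH lmall_REG kall_RM kall_DF K m hm

end Pool.Agent.Helper54.LM
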