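import Pool.Agent.Helper54.LM.Defs
import Pool.Agent.Helper54.LK.KUa

/-! # Module LFIN: final arithmetic -/

open Filter Topology

namespace Pool.Agent.Helper54.LM

open Pool.Agent.Helper42.LS Pool.Agent.Helper42.LK

lemma LFIN_qf_eq {m : ℕ} (G : Matrix (Fin m) (Fin m) ℝ) (k : Fin m → ℤ) :
    qf G k = (star (fun i => (k i : ℝ))) ⬝ᵥ (G.mulVec (fun i => (k i : ℝ))) := by
  unfold qf
  simp only [dotProduct, Matrix.mulVec, Finset.mul_sum, Pi.star_apply, star_trivial]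
  refine Finset.sum_congr rfl fun i _ => Finset.sum_congr rfl fun j _ => ?_
  ring

lemma LFIN_qf_nonneg {m : ℕ} {G : Matrix (Fin m) (Fin m) ℝ} (hG : G.PosSemidef)
    (k : Fin m → ℤ) : 0 ≤ qf G k := by
  rw [LFIN_qf_eq]
  exact hG.dotProduct_mulVec_nonneg _

lemma LFIN_qf_par {m : ℕ} (G : Matrix (Fin m) (Fin m) ℝ) (x y : Fin m → ℤ) :
    qf G (x + y) + qf G (x - y) = 2 * qf G x + 2 * qf G y := by
  unfold qf
  rw [Finset.mul_sum, Finset.mul_sum, ← Finset.sum_add_distrib, ← Finset.sum_add_distrib]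
  refine Finset.sum_congr rfl fun i _ => ?_
  rw [Finset.mul_sum, Finset.mul_sum, ← Finset.sum_add_distrib, ← Finset.sum_add_distrib]
  refine Finset.sum_congr rfl fun j _ => ?_
  simp only [Pi.add_apply, Pi.sub_apply]
  push_cast
  ring

lemma LFIN_qf_add {m : ℕ} {G : Matrix (Fin m) (Fin m) ℝ} (hG : G.PosSemidef)
    (x y : Fin m → ℤ) : qf G (x + y) ≤ 2 * qf G x + 2 * qf G y := by
  have h1 := LFIN_qf_par G x y
  have h2 := LFIN_qf_nonneg hG (x - y)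
  linarith

/-- exponents -/
noncomputable def LFIN_a (m : ℕ) : ℝ := (3 * (m : ℝ) + 6) / (4 * m + 9)

lemma LFIN_den (m : ℕ) : (0 : ℝ) < 4 * m + 9 := by positivity

lemma LFIN_a_pos (m : ℕ) : 0 < LFIN_a m := by unfold LFIN_a; positivity

lemma LFIN_a_lt (m : ℕ) : LFIN_a m < 1 := by
  unfold LFIN_a
  rw [div_lt_one (LFIN_den m)]
  have : (0 : ℝ) ≤ m := Nat.cast_nonneg m
  linarith

lemma LFIN_b_pos (m : ℕ) : 0 < 2 * LFIN_a m - 1 := by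
  unfold LFIN_a
  have h := LFIN_den m
  have h0 : (0 : ℝ) ≤ m := Nat.cast_nonneg m
  have h1 : 2 * ((3 * (m : ℝ) + 6) / (4 * m + 9)) - 1 = (2 * m + 3) / (4 * m + 9) := by
    field_simp; ring
  rw [h1]; positivity

lemma LFIN_g1 (m : ℕ) : (1 - 2 * LFIN_a m / 3) * m + (-LFIN_a m) * 2 = gam m := by
  unfold LFIN_a gam
  have h := LFIN_den m
  field_simp
  ring

lemma LFIN_g2 (m : ℕ) : (2 * LFIN_a m - 1) * (m + 2) + (-2) = gam m := by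
  unfold LFIN_a gam
  have h := LFIN_den m
  field_simp
  ring

/-- case 1, real numbers -/
lemma LFIN_alg1 {m : ℕ} {W ρ cR CR cB n D : ℝ} (hW : 1 ≤ W) (hcR : 0 < cR) (hCR : 0 < CR)
    (hcB : 0 < cB) (hn : ρ * n ≤ CR) (hρ : W ^ (-LFIN_a m) ≤ ρ) (hD : 0 ≤ D)
    (hB : cB * (cR / 1152 * (ρ ^ (2 / 3 : ℝ) * W)) ^ ((m : ℝ) / 2) ≤ n * √D) :
    (cB / CR) ^ 2 * (cR / 1152) ^ m * W ^ gam m ≤ D := by
  have hW0 : 0 < W := by linarith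
  have hρ0 : 0 < ρ := lt_of_lt_of_le (Real.rpow_pos_of_pos hW0 _) hρ
  have h23 : 0 < ρ ^ (2 / 3 : ℝ) := Real.rpow_pos_of_pos hρ0 _
  obtain ⟨T, hT⟩ : ∃ T, T = cR / 1152 * (ρ ^ (2 / 3 : ℝ) * W) := ⟨_, rfl⟩
  have hT0 : 0 < T := by rw [hT]; positivity
  rw [← hT] at hB
  obtain ⟨s, hs⟩ : ∃ s, s = T ^ ((m : ℝ) / 2) := ⟨_, rfl⟩
  have hs0 : 0 < s := by rw [hs]; exact Real.rpow_pos_of_pos hT0 _
  have hs2 : s ^ 2 = T ^ m := by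
    rw [hs, ← Real.rpow_natCast, ← Real.rpow_mul hT0.le, ← Real.rpow_natCast]
    congr 1; push_cast; ring
  rw [← hs] at hB
  have hsq : 0 ≤ √D := Real.sqrt_nonneg _
  have h1 : cB * s * ρ ≤ CR * √D := by
    calc cB * s * ρ ≤ (n * √D) * ρ := mul_le_mul_of_nonneg_right hB hρ0.le
      _ = (ρ * n) * √D := by ring
      _ ≤ CR * √D := mul_le_mul_of_nonneg_right hn hsq
  have h2 : (cB / CR) * s * ρ ≤ √D := by
    rw [div_mul_eq_mul_div, div_mul_eq_mul_div, div_le_iff₀ hCR]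
    linarith
  have h3 : ((cB / CR) * s * ρ) ^ 2 ≤ D := by
    calc ((cB / CR) * s * ρ) ^ 2 ≤ (√D) ^ 2 := pow_le_pow_left₀ (by positivity) h2 2
      _ = D := Real.sq_sqrt hD
  have h4 : ((cB / CR) * s * ρ) ^ 2 = (cB / CR) ^ 2 * (cR / 1152) ^ m *
      ((ρ ^ (2 / 3 : ℝ) * W) ^ m * ρ ^ 2) := by
    have : ((cB / CR) * s * ρ) ^ 2 = (cB / CR) ^ 2 * s ^ 2 * ρ ^ 2 := by ring
    rw [this, hs2, hT, mul_pow]; ring
  rw [h4] at h3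
  refine le_trans (mul_le_mul_of_nonneg_left ?_ (by positivity)) h3
  have h5 : W ^ (1 - 2 * LFIN_a m / 3) ≤ ρ ^ (2 / 3 : ℝ) * W := by
    have h6 : (W ^ (-LFIN_a m)) ^ (2 / 3 : ℝ) ≤ ρ ^ (2 / 3 : ℝ) :=
      Real.rpow_le_rpow (Real.rpow_nonneg hW0.le _) hρ (by norm_num)
    have h7 : W ^ (1 - 2 * LFIN_a m / 3) = (W ^ (-LFIN_a m)) ^ (2 / 3 : ℝ) * W := by
      rw [← Real.rpow_mul hW0.le]
      nth_rewrite 3 [← Real.rpow_one W]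
      rw [← Real.rpow_add hW0]
      congr 1; ring
    rw [h7]
    exact mul_le_mul_of_nonneg_right h6 hW0.le
  have h8 : W ^ gam m = (W ^ (1 - 2 * LFIN_a m / 3)) ^ m * (W ^ (-LFIN_a m)) ^ 2 := by
    rw [← Real.rpow_natCast (W ^ (1 - 2 * LFIN_a m / 3)) m,
      ← Real.rpow_natCast (W ^ (-LFIN_a m)) 2, ← Real.rpow_mul hW0.le, ← Real.rpow_mul hW0.le,
      ← Real.rpow_add hW0, ← LFIN_g1]
    push_cast; rfl
  rw [h8]
  have h9 : 0 ≤ W ^ (-LFIN_a m) := Real.rpow_nonneg hW0.le _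
  have h10 : 0 ≤ W ^ (1 - 2 * LFIN_a m / 3) := Real.rpow_nonneg hW0.le _
  exact mul_le_mul (pow_le_pow_left₀ h10 h5 m) (pow_le_pow_left₀ h9 hρ 2) (by positivity)
    (by positivity)

/-- case 2, real numbers -/
lemma LFIN_alg2 {m : ℕ} {W cB k E n D : ℝ} (hW : 1 ≤ W) (hcB : 0 < cB) (hk : 0 < k)
    (hE : k * W ^ (2 * LFIN_a m - 1) ≤ E) (hn : n * E ≤ 2 * W) (hD : 0 ≤ D)
    (hB : cB * (E / 3456) ^ ((m : ℝ) / 2) ≤ n * √D) :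
    (cB / 2) ^ 2 * (k / 3456) ^ m * k ^ 2 * W ^ gam m ≤ D := by
  have hW0 : 0 < W := by linarith
  have hWb : 0 < W ^ (2 * LFIN_a m - 1) := Real.rpow_pos_of_pos hW0 _
  have hE0 : 0 < E := lt_of_lt_of_le (by positivity) hE
  obtain ⟨T, hT⟩ : ∃ T, T = E / 3456 := ⟨_, rfl⟩
  have hT0 : 0 < T := by rw [hT]; positivity
  rw [← hT] at hB
  obtain ⟨s, hs⟩ : ∃ s, s = T ^ ((m : ℝ) / 2) := ⟨_, rfl⟩
  have hs0 : 0 < s := by rw [hs]; exact Real.rpow_pos_of_pos hT0 _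
  have hs2 : s ^ 2 = T ^ m := by
    rw [hs, ← Real.rpow_natCast, ← Real.rpow_mul hT0.le, ← Real.rpow_natCast]
    congr 1; push_cast; ring
  rw [← hs] at hB
  have hsq : 0 ≤ √D := Real.sqrt_nonneg _
  have h1 : cB * s * E ≤ (2 * W) * √D := by
    calc cB * s * E ≤ (n * √D) * E := mul_le_mul_of_nonneg_right hB hE0.le
      _ = (n * E) * √D := by ring
      _ ≤ (2 * W) * √D := mul_le_mul_of_nonneg_right hn hsq
  have h2 : (cB / 2) * s * E / W ≤ √D := by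
    rw [div_le_iff₀ hW0]
    linarith
  have h3 : ((cB / 2) * s * E / W) ^ 2 ≤ D := by
    calc ((cB / 2) * s * E / W) ^ 2 ≤ (√D) ^ 2 := pow_le_pow_left₀ (by positivity) h2 2
      _ = D := Real.sq_sqrt hD
  have h4 : ((cB / 2) * s * E / W) ^ 2 = (cB / 2) ^ 2 * ((E / 3456) ^ m * E ^ 2) / W ^ 2 := by
    have : ((cB / 2) * s * E / W) ^ 2 = (cB / 2) ^ 2 * (s ^ 2 * E ^ 2) / W ^ 2 := by
      field_simp
    rw [this, hs2, hT]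
  rw [h4] at h3
  refine le_trans ?_ h3
  obtain ⟨b, hb⟩ : ∃ b, b = W ^ (2 * LFIN_a m - 1) := ⟨_, rfl⟩
  rw [← hb] at hE hWb
  have h5 : W ^ gam m = b ^ m * b ^ 2 / W ^ 2 := by
    rw [← pow_add, hb, ← Real.rpow_natCast (W ^ (2 * LFIN_a m - 1)) (m + 2),
      ← Real.rpow_mul hW0.le, ← LFIN_g2, Real.rpow_add hW0, Real.rpow_neg hW0.le]
    push_cast
    rw [Real.rpow_two]
    ring
  rw [h5]
  have h6 : (k / 3456) ^ m * k ^ 2 * (b ^ m * b ^ 2) ≤ (E / 3456) ^ m * E ^ 2 := by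
    have h7 : (k / 3456) ^ m * k ^ 2 * (b ^ m * b ^ 2) = (k * b / 3456) ^ m * (k * b) ^ 2 := by
      rw [mul_pow k b 2, show k * b / 3456 = (k / 3456) * b by ring, mul_pow]; ring
    rw [h7]
    have h8 : 0 ≤ k * b := by positivity
    exact mul_le_mul (pow_le_pow_left₀ (by positivity) (by linarith) m)
      (pow_le_pow_left₀ h8 hE 2) (by positivity) (by positivity)
  calc (cB / 2) ^ 2 * (k / 3456) ^ m * k ^ 2 * (b ^ m * b ^ 2 / W ^ 2)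
      = (cB / 2) ^ 2 * ((k / 3456) ^ m * k ^ 2 * (b ^ m * b ^ 2)) / W ^ 2 := by ring
    _ ≤ (cB / 2) ^ 2 * ((E / 3456) ^ m * E ^ 2) / W ^ 2 := by gcongr

/-- case 1 -/
lemma LFIN_case1 {m : ℕ} {cR CR cB C₀ H : ℝ} {G : Matrix (Fin m) (Fin m) ℝ} (hG : G.PosDef)
    {V Vf : Finset ℕ} {w : ℕ → ℝ} {t : ℕ → Fin m → ℝ} {N : ℕ → ℕ}
    (hS : LSum C₀ H (qf G) V Vf w t N)
    (hR : ∀ (S : Finset (Fin m → ℤ)) (ρ : ℝ), 0 < ρ →
      ρ * (∑ v ∈ V, w v) ^ 2 ≤ ∑ v ∈ V, w v ^ 2 → CR ≤ ρ * S.card →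
      ∃ a₁ ∈ S, ∃ a₂ ∈ S, ∃ b₁ ∈ S, ∃ b₂ ∈ S, a₁ + a₂ - b₁ - b₂ ≠ 0 ∧
      cR * (ρ ^ (2 / 3 : ℝ) * ∑ v ∈ V, w v) ≤ ∑ v ∈ V, w v * B2 (pr (a₁ + a₂ - b₁ - b₂) (t v)))
    (hB : ∀ T : ℝ, 0 < T → ∃ S : Finset (Fin m → ℤ),
      cB * T ^ ((m : ℝ) / 2) ≤ S.card * √G.det ∧ ∀ a ∈ S, ∀ b ∈ S, qf G (a - b) ≤ T)
    {W ρ : ℝ} (hWd : W = ∑ v ∈ V, w v) (hW : 1 ≤ W) (hcR : 0 < cR) (hCR : 0 < CR) (hcB : 0 < cB)
    (hρ0 : 0 < ρ) (hρ2 : ρ * W ^ 2 ≤ ∑ v ∈ V, w v ^ 2)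
    (hbig : 2 * C₀ < cR * (ρ ^ (2 / 3 : ℝ) * W)) (hρ : W ^ (-LFIN_a m) ≤ ρ) :
    (cB / CR) ^ 2 * (cR / 1152) ^ m * W ^ gam m ≤ G.det := by
  have hW0 : 0 < W := by linarith
  have h23 : 0 < ρ ^ (2 / 3 : ℝ) := Real.rpow_pos_of_pos hρ0 _
  obtain ⟨S, hS1, hS2⟩ := hB (cR / 1152 * (ρ ^ (2 / 3 : ℝ) * W)) (by positivity)
  have hdet : 0 ≤ G.det := hG.det_pos.le
  refine LFIN_alg1 (n := S.card) hW hcR hCR hcB ?_ hρ hdet hS1
  by_contra hcon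
  push Not at hcon
  obtain ⟨a₁, ha₁, a₂, ha₂, b₁, hb₁, b₂, hb₂, hne, hF⟩ := hR S ρ hρ0 (by rw [← hWd]; exact hρ2)
    hcon.le
  have h1 := hS.main _ hne
  rw [← hWd] at hF
  have h2 : qf G (a₁ + a₂ - b₁ - b₂) ≤ 2 * qf G (a₁ - b₁) + 2 * qf G (a₂ - b₂) := by
    have h3 : a₁ + a₂ - b₁ - b₂ = (a₁ - b₁) + (a₂ - b₂) := by abel
    rw [h3]
    exact LFIN_qf_add hG.posSemidef _ _
  have h3 := hS2 a₁ ha₁ b₁ hb₁
  have h4 := hS2 a₂ ha₂ b₂ hb₂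
  linarith

/-- case 2 -/
lemma LFIN_case2 {m : ℕ} {cB C₀ H : ℝ} {G : Matrix (Fin m) (Fin m) ℝ} (hG : G.PosDef)
    {V Vf : Finset ℕ} {w : ℕ → ℝ} {t : ℕ → Fin m → ℝ} {N : ℕ → ℕ}
    (hS : LSum C₀ H (qf G) V Vf w t N) (hSG : ST_LSG)
    (hB : ∀ T : ℝ, 0 < T → ∃ S : Finset (Fin m → ℤ),
      cB * T ^ ((m : ℝ) / 2) ≤ S.card * √G.det ∧ ∀ a ∈ S, ∀ b ∈ S, qf G (a - b) ≤ T)
    {W : ℝ} (hWd : W = ∑ v ∈ V, w v) (hW : 1 ≤ W) (hcB : 0 < cB)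
    (hsmall : ∑ v ∈ V, w v ^ 2 ≤ W ^ (-LFIN_a m) * W ^ 2)
    (h14 : C₀ * W ^ (-LFIN_a m) ≤ 1 / 4)
    (hbig : 24 * C₀ < Real.log 2 ^ 2 / 8 * W ^ (2 * LFIN_a m - 1)) :
    (cB / 2) ^ 2 * (Real.log 2 ^ 2 / 8 / 3456) ^ m * (Real.log 2 ^ 2 / 8) ^ 2 * W ^ gam m
      ≤ G.det := by
  have hW0 : 0 < W := by linarith
  have hl : 0 < Real.log 2 := Real.log_pos (by norm_num)
  have hdet : 0 ≤ G.det := hG.det_pos.le
  have hWa : 0 < W ^ (-LFIN_a m) := Real.rpow_pos_of_pos hW0 _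
  -- the archimedean part
  have harch : ∑ v ∈ V \ Vf, w v ≤ W / 2 := by
    have h1 : (∑ v ∈ V \ Vf, w v) ^ 2 ≤ (W / 2) ^ 2 := by
      calc (∑ v ∈ V \ Vf, w v) ^ 2 ≤ (V \ Vf).card * ∑ v ∈ V \ Vf, w v ^ 2 :=
            sq_sum_le_card_mul_sum_sq
        _ ≤ C₀ * (W ^ (-LFIN_a m) * W ^ 2) := by
            refine mul_le_mul hS.card ?_ (Finset.sum_nonneg fun v _ => sq_nonneg _)
              (le_trans (Nat.cast_nonneg _) hS.card)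
            exact le_trans (Finset.sum_le_sum_of_subset_of_nonneg Finset.sdiff_subset
              (fun v _ _ => sq_nonneg _)) hsmall
        _ = (C₀ * W ^ (-LFIN_a m)) * W ^ 2 := by ring
        _ ≤ 1 / 4 * W ^ 2 := mul_le_mul_of_nonneg_right h14 (by positivity)
        _ = (W / 2) ^ 2 := by ring
    exact (abs_le_of_sq_le_sq' h1 (by positivity)).2
  have hsplit : ∑ v ∈ V \ Vf, w v + ∑ v ∈ Vf, w v = W := by
    rw [hWd]; exact Finset.sum_sdiff hS.sub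
  obtain ⟨Q, hQ⟩ : ∃ Q, Q = Vf.filter (fun v => w v ≠ 0) := ⟨_, rfl⟩
  have hQsub : Q ⊆ Vf := by rw [hQ]; exact Finset.filter_subset _ _
  have hQw : ∑ v ∈ Q, w v = ∑ v ∈ Vf, w v := by
    rw [hQ]; exact Finset.sum_filter_ne_zero _
  have hQD : ∑ v ∈ Q, w v / (N v : ℝ) ^ 2 = ∑ v ∈ Vf, w v / (N v : ℝ) ^ 2 := by
    refine Finset.sum_subset hQsub fun v hv hvQ => ?_
    have : w v = 0 := by
      by_contra h
      exact hvQ (by rw [hQ]; exact Finset.mem_filter.mpr ⟨hv, h⟩)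
    rw [this, zero_div]
  obtain ⟨E, hE⟩ : ∃ E, E = ∑ v ∈ Vf, w v / (N v : ℝ) ^ 2 := ⟨_, rfl⟩
  have hGl : Real.log 2 ^ 2 / 8 * (W ^ 3 / (W ^ (-LFIN_a m) * W ^ 2) ^ 2) ≤ E := by
    rw [hE, ← hQD]
    refine Pool.Agent.Helper54.LK.G_low hl hW0 (by positivity) (fun v hv => hS.nonneg v (hS.sub (hQsub hv)))
      (fun v hv => hS.npos v (hQsub hv)) (fun v hv => ?_) ?_ ?_
    · rw [hQ] at hv
      obtain ⟨hv1, hv2⟩ := Finset.mem_filter.mp hv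
      exact hS.nle v hv1 hv2
    · rw [hQw]; linarith
    · exact le_trans (Finset.sum_le_sum_of_subset_of_nonneg (fun v hv => hS.sub (hQsub hv))
        (fun v _ _ => sq_nonneg _)) hsmall
  have hpow : W ^ 3 / (W ^ (-LFIN_a m) * W ^ 2) ^ 2 = W ^ (2 * LFIN_a m - 1) := by
    have h1 : W ^ (2 * LFIN_a m - 1) * (W ^ (-LFIN_a m) * W ^ (-LFIN_a m)) = W⁻¹ := by
      rw [← Real.rpow_add hW0, ← Real.rpow_add hW0, ← Real.rpow_neg_one]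
      congr 1; ring
    rw [div_eq_iff (by positivity)]
    have h2 : W ^ (2 * LFIN_a m - 1) * (W ^ (-LFIN_a m) * W ^ 2) ^ 2 =
        (W ^ (2 * LFIN_a m - 1) * (W ^ (-LFIN_a m) * W ^ (-LFIN_a m))) * W ^ 4 := by ring
    rw [h2, h1]
    field_simp
  rw [hpow] at hGl
  have hE0 : 0 < E := lt_of_lt_of_le (by positivity) hGl
  obtain ⟨S, hS1, hS2⟩ := hB (E / 3456) (by positivity)
  refine LFIN_alg2 (n := S.card) hW hcB (by positivity) hGl ?_ hdet hS1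
  by_contra hcon
  push Not at hcon
  obtain ⟨a, ha, b, hb, hab, hF⟩ := hSG m S V Vf w t N hS.sub hS.nonneg hS.npos hS.int
    (by rw [← hE]; exact hE0) (by rw [← hE, ← hWd]; exact hcon.le)
  have h1 := hS.main (a - b) (sub_ne_zero.mpr hab)
  have h2 := hS2 a ha b hb
  rw [← hE] at hF
  linarith

theorem st_LFIN (hSG : ST_LSG) (hSR : ST_LSR) (hBF : ST_LBF) : ST_LFIN := by
  intro m hm C₀ hC₀
  obtain ⟨cR, CR, hcR, hCR, hR⟩ := hSR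
  obtain ⟨cB, hcB, hB⟩ := hBF m
  have hl : 0 < Real.log 2 := Real.log_pos (by norm_num)
  have ha := LFIN_a_pos m
  have ha1 := LFIN_a_lt m
  have hb := LFIN_b_pos m
  -- largeness
  have e1 : ∀ᶠ W : ℝ in atTop, 2 * C₀ / cR < W ^ (1 - 2 * LFIN_a m / 3) :=
    (tendsto_rpow_atTop (by linarith)).eventually_gt_atTop _
  have e2 : ∀ᶠ W : ℝ in atTop, 4 * C₀ < W ^ LFIN_a m :=
    (tendsto_rpow_atTop ha).eventually_gt_atTop _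
  have e3 : ∀ᶠ W : ℝ in atTop, 24 * C₀ / (Real.log 2 ^ 2 / 8) < W ^ (2 * LFIN_a m - 1) :=
    (tendsto_rpow_atTop hb).eventually_gt_atTop _
  obtain ⟨W₀, hW₀⟩ := Filter.eventually_atTop.mp (e1.and (e2.and e3))
  refine ⟨min ((cB / CR) ^ 2 * (cR / 1152) ^ m) ((cB / 2) ^ 2 *
    (Real.log 2 ^ 2 / 8 / 3456) ^ m * (Real.log 2 ^ 2 / 8) ^ 2), max 1 W₀, ?_, le_max_left _ _, ?_⟩
  · exact lt_min (by positivity) (by positivity)
  intro G hG H V Vf w t N hS hWW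
  obtain ⟨W, hWd⟩ : ∃ W, W = ∑ v ∈ V, w v := ⟨_, rfl⟩
  rw [← hWd] at hWW ⊢
  have hW1 : 1 ≤ W := le_trans (le_max_left _ _) hWW
  have hW0 : 0 < W := by linarith
  obtain ⟨h1, h2, h3⟩ := hW₀ W (le_trans (le_max_right _ _) hWW)
  have hWg : 0 < W ^ gam m := Real.rpow_pos_of_pos hW0 _
  obtain ⟨ρ, hρ⟩ : ∃ ρ, ρ = (∑ v ∈ V, w v ^ 2) / W ^ 2 := ⟨_, rfl⟩
  have hρW : ρ * W ^ 2 = ∑ v ∈ V, w v ^ 2 := by rw [hρ]; field_simp
  rcases le_or_gt (W ^ (-LFIN_a m)) ρ with hc | hc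
  · have hρ0 : 0 < ρ := lt_of_lt_of_le (Real.rpow_pos_of_pos hW0 _) hc
    refine le_trans (mul_le_mul_of_nonneg_right (min_le_left _ _) hWg.le) ?_
    refine LFIN_case1 hG hS (fun S ρ' hρ' hle hcard => hR m S V w t ρ' hS.nonneg
      (by rw [← hWd]; exact hW0) hρ' hle hcard) (fun T hT => hB G hG T hT) hWd hW1 hcR hCR hcB
      hρ0 hρW.le ?_ hc
    have h5 : W ^ (1 - 2 * LFIN_a m / 3) ≤ ρ ^ (2 / 3 : ℝ) * W := by
      have h6 : (W ^ (-LFIN_a m)) ^ (2 / 3 : ℝ) ≤ ρ ^ (2 / 3 : ℝ) :=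
        Real.rpow_le_rpow (Real.rpow_nonneg hW0.le _) hc (by norm_num)
      have h7 : W ^ (1 - 2 * LFIN_a m / 3) = (W ^ (-LFIN_a m)) ^ (2 / 3 : ℝ) * W := by
        rw [← Real.rpow_mul hW0.le]
        nth_rewrite 3 [← Real.rpow_one W]
        rw [← Real.rpow_add hW0]
        congr 1; ring
      rw [h7]
      exact mul_le_mul_of_nonneg_right h6 hW0.le
    rw [div_lt_iff₀ hcR] at h1
    calc 2 * C₀ < W ^ (1 - 2 * LFIN_a m / 3) * cR := h1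
      _ ≤ (ρ ^ (2 / 3 : ℝ) * W) * cR := mul_le_mul_of_nonneg_right h5 hcR.le
      _ = cR * (ρ ^ (2 / 3 : ℝ) * W) := by ring
  · refine le_trans (mul_le_mul_of_nonneg_right (min_le_right _ _) hWg.le) ?_
    refine LFIN_case2 hG hS hSG (fun T hT => hB G hG T hT) hWd hW1 hcB ?_ ?_ ?_
    · rw [← hρW]
      exact mul_le_mul_of_nonneg_right hc.le (by positivity)
    · rw [Real.rpow_neg hW0.le, ← div_eq_mul_inv, div_le_iff₀ (Real.rpow_pos_of_pos hW0 _)]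
      linarith
    · rw [div_lt_iff₀ (by positivity)] at h3
      linarith

end Pool.Agent.Helper54.LM
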