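import Pool.Agent.Helper54.LM.LFIN

/-! # Module LREG: lower bound for the Gram determinant -/

open Filter Topology NumberField

namespace Pool.Agent.Helper54.LM

open Pool.Agent.Helper42.LS Pool.Agent.Helper42.LK

/-- a symmetric matrix which is nonnegative on integer vectors is positive semidefinite -/
lemma LREG_psd {m : ℕ} {G : Matrix (Fin m) (Fin m) ℝ} (hs : G.IsSymm)
    (h : ∀ k : Fin m → ℤ, 0 ≤ qf G k) : G.PosSemidef := by
  have hherm : G.IsHermitian := by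
    rw [Matrix.IsHermitian, Matrix.conjTranspose_eq_transpose_of_trivial]; exact hs
  refine Matrix.PosSemidef.of_dotProduct_mulVec_nonneg hherm fun x => ?_
  have hd : DenseRange (Pi.map (fun (_ : Fin m) (q : ℚ) => (q : ℝ))) :=
    DenseRange.piMap (fun _ => Rat.denseRange_cast)
  have hcl : IsClosed {x : Fin m → ℝ | 0 ≤ star x ⬝ᵥ (G.mulVec x)} := by
    apply isClosed_le continuous_const
    simp only [star_trivial]
    exact Continuous.dotProduct continuous_id (Continuous.matrix_mulVec continuous_const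
      continuous_id)
  refine hd.induction_on (p := fun x => 0 ≤ star x ⬝ᵥ (G.mulVec x)) x hcl ?_
  intro q
  obtain ⟨n, hn⟩ : ∃ n : ℕ, n = ∏ i, (q i).den := ⟨_, rfl⟩
  have hn0 : 0 < n := by rw [hn]; exact Finset.prod_pos fun i _ => (q i).den_pos
  have hz : ∀ i, ∃ z : ℤ, (n : ℝ) * ((q i : ℚ) : ℝ) = z := by
    intro i
    have h1 : (q i).den ∣ n := by rw [hn]; exact Finset.dvd_prod_of_mem _ (Finset.mem_univ i)
    obtain ⟨r, hr⟩ := h1
    refine ⟨(r : ℤ) * (q i).num, ?_⟩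
    have h2 : ((q i).den : ℚ) * q i = (q i).num := by
      rw [mul_comm]; exact Rat.mul_den_eq_num (q i)
    have h3 : ((n : ℚ) * q i) = (r : ℚ) * (q i).num := by
      rw [hr]; push_cast; rw [← h2]; ring
    have h4 := congrArg (fun t : ℚ => (t : ℝ)) h3
    push_cast at h4 ⊢
    exact h4
  choose z hz using hz
  have h1 := h z
  have h2 : qf G z = (n : ℝ) ^ 2 * (star (Pi.map (fun (_ : Fin m) (q : ℚ) => (q : ℝ)) q) ⬝ᵥ
      (G.mulVec (Pi.map (fun (_ : Fin m) (q : ℚ) => (q : ℝ)) q))) := by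
    rw [LFIN_qf_eq]
    simp only [dotProduct, Matrix.mulVec, Finset.mul_sum, Pi.star_apply, star_trivial, Pi.map]
    refine Finset.sum_congr rfl fun i _ => Finset.sum_congr rfl fun j _ => ?_
    rw [← hz i, ← hz j]
    ring
  rw [h2] at h1
  have h3 : (0 : ℝ) < (n : ℝ) ^ 2 := by positivity
  exact nonneg_of_mul_nonneg_right h1 h3

lemma LREG_qf_pert {m : ℕ} (G : Matrix (Fin m) (Fin m) ℝ) {ε : ℝ} (hε : 0 ≤ ε)
    (k : Fin m → ℤ) : qf G k ≤ qf (G + ε • (1 : Matrix (Fin m) (Fin m) ℝ)) k := by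
  have h : qf (G + ε • (1 : Matrix (Fin m) (Fin m) ℝ)) k = qf G k + ε * ∑ i, (k i : ℝ) ^ 2 := by
    unfold qf
    rw [Finset.mul_sum, ← Finset.sum_add_distrib]
    refine Finset.sum_congr rfl fun i _ => ?_
    have h1 : ∀ j, (k i : ℝ) * (k j : ℝ) * (G + ε • (1 : Matrix (Fin m) (Fin m) ℝ)) i j =
        (k i : ℝ) * (k j : ℝ) * G i j + (if i = j then ε * ((k i : ℝ) * (k j : ℝ)) else 0) := by
      intro j
      rw [Matrix.add_apply, Matrix.smul_apply, Matrix.one_apply]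
      split_ifs
      · simp only [smul_eq_mul]; ring
      · simp only [smul_eq_mul]; ring
    rw [Finset.sum_congr rfl fun j _ => h1 j, Finset.sum_add_distrib, Finset.sum_ite_eq,
      if_pos (Finset.mem_univ i)]
    ring
  rw [h]
  have : 0 ≤ ε * ∑ i, (k i : ℝ) ^ 2 := mul_nonneg hε (Finset.sum_nonneg fun i _ => sq_nonneg _)
  linarith

lemma LREG_pd {m : ℕ} {G : Matrix (Fin m) (Fin m) ℝ} (hG : G.PosSemidef) {ε : ℝ} (hε : 0 < ε) :
    (G + ε • (1 : Matrix (Fin m) (Fin m) ℝ)).PosDef := by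
  have h1 : (ε • (1 : Matrix (Fin m) (Fin m) ℝ)).PosDef := Matrix.PosDef.one.smul hε
  rw [add_comm]
  exact h1.add_posSemidef hG

/-- reduction to positive definite matrices -/
lemma LREG_limit {m : ℕ} {G : Matrix (Fin m) (Fin m) ℝ} {r : ℝ}
    (h : ∀ ε : ℝ, 0 < ε → r ≤ (G + ε • (1 : Matrix (Fin m) (Fin m) ℝ)).det) : r ≤ G.det := by
  have hc : Continuous fun ε : ℝ => (G + ε • (1 : Matrix (Fin m) (Fin m) ℝ)).det :=
    Continuous.matrix_det (continuous_const.add (continuous_id.smul continuous_const))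
  have ht : Tendsto (fun ε : ℝ => (G + ε • (1 : Matrix (Fin m) (Fin m) ℝ)).det)
      (𝓝[>] 0) (𝓝 ((G + (0 : ℝ) • (1 : Matrix (Fin m) (Fin m) ℝ)).det)) :=
    (hc.tendsto 0).mono_left nhdsWithin_le_nhds
  rw [zero_smul, add_zero] at ht
  exact ge_of_tendsto ht (eventually_nhdsWithin_of_forall fun ε hε => h ε hε)

/-- comparison of real powers -/
lemma LREG_pow {g a b x y : ℝ} (ha : 0 < a) (hy : 0 < y) (h1 : a * y ≤ x)
    (h2 : x ≤ b * y) : min (a ^ g) (b ^ g) * y ^ g ≤ x ^ g := by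
  have hx : 0 < x := lt_of_lt_of_le (by positivity) h1
  have hb : 0 < b := by
    by_contra hb
    push Not at hb
    have : b * y ≤ 0 := mul_nonpos_of_nonpos_of_nonneg hb hy.le
    linarith
  have hyg : 0 < y ^ g := Real.rpow_pos_of_pos hy _
  rcases le_or_gt 0 g with hg | hg
  · calc min (a ^ g) (b ^ g) * y ^ g ≤ a ^ g * y ^ g :=
          mul_le_mul_of_nonneg_right (min_le_left _ _) hyg.le
      _ = (a * y) ^ g := (Real.mul_rpow ha.le hy.le).symm
      _ ≤ x ^ g := Real.rpow_le_rpow (by positivity) h1 hg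
  · calc min (a ^ g) (b ^ g) * y ^ g ≤ b ^ g * y ^ g :=
          mul_le_mul_of_nonneg_right (min_le_right _ _) hyg.le
      _ = (b * y) ^ g := (Real.mul_rpow hb.le hy.le).symm
      _ ≤ x ^ g := Real.rpow_le_rpow_of_nonpos hx h2 hg.le

/-- small curves -/
lemma LREG_small {m : ℕ} {cB cs : ℝ} (hcs : 0 < cs) (hcB : 0 < cB)
    (hB : ∀ G : Matrix (Fin m) (Fin m) ℝ, G.PosDef →
      ∀ T : ℝ, 0 < T → ∃ S : Finset (Fin m → ℤ),
      cB * T ^ ((m : ℝ) / 2) ≤ S.card * √G.det ∧ ∀ a ∈ S, ∀ b ∈ S, qf G (a - b) ≤ T)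
    {G : Matrix (Fin m) (Fin m) ℝ} (hG : G.PosDef) (h : ∀ k, k ≠ 0 → cs ≤ qf G k) :
    (cB * (cs / 2) ^ ((m : ℝ) / 2)) ^ 2 ≤ G.det := by
  obtain ⟨S, hS1, hS2⟩ := hB G hG (cs / 2) (by positivity)
  have hcard : (S.card : ℝ) ≤ 1 := by
    have : S.card ≤ 1 := by
      rw [Finset.card_le_one]
      intro a ha b hb
      by_contra hab
      have h1 := h (a - b) (sub_ne_zero.mpr hab)
      have h2 := hS2 a ha b hb
      linarith
    exact_mod_cast this
  have hdet := hG.det_pos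
  have h0 : 0 < (cs / 2) ^ ((m : ℝ) / 2) := Real.rpow_pos_of_pos (by positivity) _
  have h3 : cB * (cs / 2) ^ ((m : ℝ) / 2) ≤ √G.det := by
    refine le_trans hS1 ?_
    calc (S.card : ℝ) * √G.det ≤ 1 * √G.det :=
          mul_le_mul_of_nonneg_right hcard (Real.sqrt_nonneg _)
      _ = √G.det := one_mul _
  calc (cB * (cs / 2) ^ ((m : ℝ) / 2)) ^ 2 ≤ (√G.det) ^ 2 :=
        pow_le_pow_left₀ (by positivity) h3 2
    _ = G.det := Real.sq_sqrt hdet.le

theorem st_LREG (hFIN : ST_LFIN) (hMT : ST_LMT) (hBF : ST_LBF) (hSQ : ST_LSQ) (hSM : ST_KSM) :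
    ST_LREG := by
  intro K _ _ m hm
  obtain ⟨C₀, hC₀, hM⟩ := hMT K m
  obtain ⟨c₁, W₀, hc₁, hW₀, hF⟩ := hFIN m hm C₀ hC₀
  obtain ⟨cB, hcB, hB⟩ := hBF m
  obtain ⟨cs, hcs, hS⟩ := hSM K (2 * (W₀ + C₀) + 4 * C₀ + 1)
  obtain ⟨H₀, hH₀⟩ : ∃ H₀, H₀ = 2 * (W₀ + C₀) + 4 * C₀ + 1 := ⟨_, rfl⟩
  rw [← hH₀] at hS
  obtain ⟨cA, hcA⟩ : ∃ cA : ℝ, cA = min ((1 / 4 : ℝ) ^ gam m) ((1 + C₀) ^ gam m) := ⟨_, rfl⟩
  have hcA0 : 0 < cA := by
    rw [hcA]
    exact lt_min (Real.rpow_pos_of_pos (by norm_num) _) (Real.rpow_pos_of_pos (by linarith) _)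
  obtain ⟨cD, hcD⟩ : ∃ cD : ℝ, cD = (cB * (cs / 2) ^ ((m : ℝ) / 2)) ^ 2 := ⟨_, rfl⟩
  have hcD0 : 0 < cD := by
    rw [hcD]
    have : 0 < (cs / 2) ^ ((m : ℝ) / 2) := Real.rpow_pos_of_pos (by positivity) _
    positivity
  have hH0 : 0 < H₀ := by rw [hH₀]; linarith
  obtain ⟨cE, hcE⟩ : ∃ cE : ℝ, cE = (1 + H₀) ^ (-|gam m|) := ⟨_, rfl⟩
  have hcE0 : 0 < cE := by rw [hcE]; exact Real.rpow_pos_of_pos (by linarith) _
  refine ⟨min (c₁ * cA) (cD * cE), lt_min (by positivity) (by positivity), ?_⟩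
  intro A B hAB X Y G hL hsymm hcan
  obtain ⟨H, hH1, hH2, hH3, V, Vf, w, t, N, hsum⟩ := hM A B hAB X Y (qf G) hL hcan
  have hHK0 : 0 ≤ HK A B := le_trans hH1 hH2
  have hHKg : 0 < (1 + HK A B) ^ gam m := Real.rpow_pos_of_pos (by linarith) _
  -- the form is nonnegative
  have hpos : ∀ k : Fin m → ℤ, 0 ≤ qf G k := by
    intro k
    by_cases hk : k = 0
    · subst hk
      unfold qf
      simp
    · have h1 := hcan k hk 1 le_rfl
      simp only [Nat.cast_one, one_pow, one_mul] at h1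
      exact ge_of_tendsto' h1 fun n => div_nonneg (Height.zero_le_logHeight₁ _) (by positivity)
  have hpsd := LREG_psd hsymm hpos
  apply LREG_limit
  intro ε hε
  obtain ⟨G', hG'⟩ : ∃ G' : Matrix (Fin m) (Fin m) ℝ,
    G' = G + ε • (1 : Matrix (Fin m) (Fin m) ℝ) := ⟨_, rfl⟩
  have hpd : G'.PosDef := by rw [hG']; exact LREG_pd hpsd hε
  have hle : ∀ k, qf G k ≤ qf G' k := fun k => by rw [hG']; exact LREG_qf_pert G hε.le k
  rw [← hG']
  rcases le_or_gt (HK A B) H₀ with hc | hc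
  · -- small curves
    refine le_trans (mul_le_mul_of_nonneg_right (min_le_right _ _) hHKg.le) ?_
    have h1 : cD ≤ G'.det := by
      rw [hcD]
      refine LREG_small hcs hcB hB hpd fun k hk => ?_
      exact le_trans (hS A B hAB hc _ _ _ (hSQ K m 0 A B X Y hL k hk) (hcan k hk)) (hle k)
    refine le_trans ?_ h1
    have h2 : cE * (1 + HK A B) ^ gam m ≤ 1 := by
      have h3 : (1 + HK A B) ^ gam m ≤ (1 + HK A B) ^ |gam m| :=
        Real.rpow_le_rpow_of_exponent_le (by linarith) (le_abs_self _)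
      have h4 : (1 + HK A B) ^ |gam m| ≤ (1 + H₀) ^ |gam m| :=
        Real.rpow_le_rpow (by linarith) (by linarith) (abs_nonneg _)
      have h5 : cE * (1 + H₀) ^ |gam m| = 1 := by
        rw [hcE, ← Real.rpow_add (by linarith)]
        simp
      calc cE * (1 + HK A B) ^ gam m ≤ cE * (1 + H₀) ^ |gam m| :=
            mul_le_mul_of_nonneg_left (le_trans h3 h4) hcE0.le
        _ = 1 := h5
    calc cD * cE * (1 + HK A B) ^ gam m = cD * (cE * (1 + HK A B) ^ gam m) := by ring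
      _ ≤ cD * 1 := mul_le_mul_of_nonneg_left h2 hcD0.le
      _ = cD := mul_one _
  · -- large curves
    refine le_trans (mul_le_mul_of_nonneg_right (min_le_left _ _) hHKg.le) ?_
    have habs := abs_le.mp hsum.total
    have hsum' : LSum C₀ H (qf G') V Vf w t N := by
      refine ⟨hsum.sub, hsum.nonneg, hsum.npos, hsum.int, hsum.nle, hsum.card, hsum.total, ?_⟩
      intro k hk
      have h1 := hsum.main k hk
      have h2 := hle k
      linarith
    have h1 := hF G' hpd H V Vf w t N hsum' (by linarith [habs.1])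
    refine le_trans ?_ h1
    have h2 : cA * (1 + HK A B) ^ gam m ≤ (∑ v ∈ V, w v) ^ gam m := by
      rw [hcA]
      refine LREG_pow (by norm_num) (by linarith) ?_ ?_
      · linarith [habs.1]
      · nlinarith [habs.2]
    calc c₁ * cA * (1 + HK A B) ^ gam m = c₁ * (cA * (1 + HK A B) ^ gam m) := by ring
      _ ≤ _ := mul_le_mul_of_nonneg_left h2 hc₁.le

end Pool.Agent.Helper54.LM
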